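import Pool.Agent.Work.MP_92a29d_co.Main

/-!
A counting criterion for the value `2 ^ t + 1`, for every number `t ≥ 2` of colours.
-/

namespace Pool.Agent.Results.MP_92a29d_co.CountCriterion

open Pool.Agent.Work.MP_92a29d_co

/-- With `t + 2` colours: if the sum of the squares of `2 ^ (t + 1) - m i` (truncated at `0`) plus
`(t + 2) * 2 ^ (t + 2)` is smaller than `2 ^ (t + 1) * (2 ^ (t + 2) + 1)`, then the value is
`2 ^ (t + 2) + 1` if and only if all tuples obtained by deleting one parameter have the value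
`2 ^ (t + 1) + 1`. -/
theorem result : ∀ (t : ℕ) (m : Fin (t + 2) → ℕ), (∀ i, 1 ≤ m i) →
    ∑ i, (2 ^ (t + 1) - m i) ^ 2 + (t + 2) * 2 ^ (t + 2) < 2 ^ (t + 1) * (2 ^ (t + 2) + 1) →
    (oddCycleRamsey m = 2 ^ (t + 2) + 1 ↔
      ∀ i : Fin (t + 2), oddCycleRamsey (i.removeNth m) = 2 ^ (t + 1) + 1) :=
  count_iff

end Pool.Agent.Results.MP_92a29d_co.CountCriterion
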