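import Pool.Agent.Work.MP_92a29d_co_h16.MinTuples

/-!
Four colours: the tuples with value 17 (answer to Q2).
-/

namespace Pool.Agent.Results.MP_92a29d_co.FourColourClassification

open Pool.Agent.Work.MP_92a29d_co

/-- For positive integers `m 0, m 1, m 2, m 3` the value
`r(≤ (C_{2 m 0 + 1}, C_{2 m 1 + 1}, C_{2 m 2 + 1}, C_{2 m 3 + 1}))` is `17` if and only if some
rearrangement of `m` is entrywise at least one of the eight tuples `(8, 4, 2, 1)`, `(7, 5, 2, 1)`,
`(6, 6, 2, 1)`, `(7, 3, 3, 1)`, `(4, 4, 3, 1)`, `(6, 2, 2, 2)`, `(4, 3, 2, 2)`, `(3, 3, 3, 2)`. -/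
theorem result : ∀ m : Fin 4 → ℕ, (∀ i, 1 ≤ m i) → (oddCycleRamsey m = 17 ↔ Large m) :=
  fun m hm => all_large min_tuples m hm

end Pool.Agent.Results.MP_92a29d_co.FourColourClassification
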