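import Pool.Agent.Work.MP_92a29d_co.Main

/-!
For every number of colours, the tuple `(2 ^ (t - 1), …, 4, 2, 1)` is a minimal tuple with value
`2 ^ t + 1`.
-/

namespace Pool.Agent.Results.MP_92a29d_co.SharpThreshold

open Pool.Agent.Work.MP_92a29d_co

/-- With `t + 1` colours, the tuple `(2 ^ t, …, 4, 2, 1)` has the value `2 ^ (t + 1) + 1`, and
every other tuple of positive integers below it has a larger value. -/
theorem result : ∀ t : ℕ,
    oddCycleRamsey (fun i : Fin (t + 1) => 2 ^ (t - (i : ℕ))) = 2 ^ (t + 1) + 1 ∧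
    ∀ m : Fin (t + 1) → ℕ, (∀ i, 1 ≤ m i) → (∀ i, m i ≤ 2 ^ (t - (i : ℕ))) →
      (m ≠ fun i : Fin (t + 1) => 2 ^ (t - (i : ℕ))) → 2 ^ (t + 1) + 1 < oddCycleRamsey m :=
  fun t => ⟨threshold_value t, fun m hm hle hne => threshold_sharp t m hm hle hne⟩

end Pool.Agent.Results.MP_92a29d_co.SharpThreshold
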