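import Pool.Agent.Work.MP_92a29d_co.Split

/-!
For every number of colours, explicit exceptional tuples: everything below a tuple obtained from
`(0)` by splitting an entry `a` into `2 a + 1, a + 1` and by inserting arbitrary entries has a
value larger than `2 ^ t + 1`.
-/

namespace Pool.Agent.Results.MP_92a29d_co.SplitFamily

open Pool.Agent.Work.MP_92a29d_co

/-- If `l` is generated from `(0)` by splittings and insertions, then every tuple of positive
integers that is entrywise at most `l` has a value larger than `2 ^ t + 1`, where `t` is the
length of `l`. -/
theorem result : ∀ l : List ℕ, SplitTuple l → ∀ m : Fin l.length → ℕ,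
    (∀ i, 1 ≤ m i) → (∀ i, m i ≤ l.get i) → 2 ^ l.length + 1 < oddCycleRamsey m :=
  fun _ h m hm hle => splitTuple_value h m hm hle

end Pool.Agent.Results.MP_92a29d_co.SplitFamily
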